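import Pool.Agent.N463.MI.Stm

set_option autoImplicit false

/-!
# Project MI: odd terms and tail near `θ = π`
-/

namespace Pool.Agent.N75.MI

open Finset Filter Topology
open Pool.Agent.N463.MI

theorem cf_bd {a : ℝ} (ha : 2 ≤ a) (ψ : ℝ) (j : ℕ) : |cf a ψ j| ≤ 3 + (1 / 2 : ℝ) ^ (j + 1) := by
  unfold cf
  rw [abs_mul, abs_pow, abs_neg, abs_one, one_pow, one_mul]
  have h1 : |2 * Real.cos ((j + 1 : ℕ) * ψ) - 1 - (a⁻¹) ^ (j + 1)| ≤
      2 * |Real.cos ((j + 1 : ℕ) * ψ)| + 1 + (a⁻¹) ^ (j + 1) := by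
    have h2 : 0 ≤ (a⁻¹) ^ (j + 1) := by positivity
    rw [abs_le]
    have h3 := neg_abs_le (Real.cos ((j + 1 : ℕ) * ψ))
    have h4 := le_abs_self (Real.cos ((j + 1 : ℕ) * ψ))
    constructor <;> linarith
  have h2 : |Real.cos ((j + 1 : ℕ) * ψ)| ≤ 1 := Real.abs_cos_le_one _
  have h3 : (a⁻¹) ^ (j + 1) ≤ (1 / 2 : ℝ) ^ (j + 1) := by
    apply pow_le_pow_left₀ (by positivity)
    rw [one_div]
    exact inv_anti₀ (by norm_num) ha
  linarith

/-- the terms far out -/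
theorem far (h2 : B02) {a : ℝ} (ha : 2 ≤ a) (ψ : ℝ) {t : ℝ} (ht : 0 < t) (θ : ℝ) (j : ℕ)
    (hj : 40 ≤ j) :
    |cf a ψ j / ((j : ℝ) + 1) * ((kr ((j + 1 : ℕ) * t) ((j + 1 : ℕ) * θ) - 1) / 2)| ≤
      3.0001 / t * (1 / ((j : ℝ) + 1) ^ 2) := by
  have hj0 : (0 : ℝ) < (j : ℝ) + 1 := by positivity
  have hjc : ((j + 1 : ℕ) : ℝ) = (j : ℝ) + 1 := by push_cast; rfl
  have h1 := cf_bd ha ψ j
  have h3 : (1 / 2 : ℝ) ^ (j + 1) ≤ 0.0001 := by
    calc (1 / 2 : ℝ) ^ (j + 1) ≤ (1 / 2 : ℝ) ^ 20 :=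
          pow_le_pow_of_le_one (by norm_num) (by norm_num) (by omega)
      _ ≤ 0.0001 := by norm_num
  have h4 := (h2 (((j : ℝ) + 1) * t) (((j : ℝ) + 1) * θ) (by positivity)).1
  rw [hjc, abs_mul, abs_div, abs_div, abs_of_pos hj0, abs_two]
  calc |cf a ψ j| / ((j : ℝ) + 1) * (|kr (((j : ℝ) + 1) * t) (((j : ℝ) + 1) * θ) - 1| / 2)
      ≤ 3.0001 / ((j : ℝ) + 1) * ((2 / (((j : ℝ) + 1) * t)) / 2) := by
        gcongr
        linarith
    _ = 3.0001 / t * (1 / ((j : ℝ) + 1) ^ 2) := by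
        field_simp

/-- the first terms -/
theorem near (h2 : B02) {a : ℝ} (ha : 2 ≤ a) (ψ : ℝ) {t : ℝ} (ht : 0 < t) (ht2 : 39 * t ≤ 1)
    {θ : ℝ} (hθ1 : Real.pi - 1 / 25 ≤ θ) (hθ2 : θ ≤ Real.pi) (l : ℕ) (hl : l < 20) :
    |cf a ψ (2 * l) / (((2 * l : ℕ) : ℝ) + 1) *
      ((kr ((2 * l + 1 : ℕ) * t) ((2 * l + 1 : ℕ) * θ) - 1) / 2)| ≤
      (3 + (1 / 2 : ℝ) ^ (2 * l + 1)) / (2 * (2 * (l : ℝ) + 1)) := by
  set m : ℝ := ((2 * l + 1 : ℕ) : ℝ) with hm
  have hm1 : m = 2 * (l : ℝ) + 1 := by rw [hm]; push_cast; ring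
  have hl' : (l : ℝ) ≤ 19 := by exact_mod_cast (by omega : l ≤ 19)
  have hl0 : (0 : ℝ) ≤ l := Nat.cast_nonneg l
  have hm39 : m ≤ 39 := by rw [hm1]; linarith
  have hm0 : 0 < m := by rw [hm1]; linarith
  set h : ℝ := Real.pi - θ with hh
  have hh0 : 0 ≤ h := by linarith
  have hh1 : h ≤ 1 / 25 := by linarith
  -- the cosine
  have hmh0 : 0 ≤ m * h := by positivity
  have hmh : m * h ≤ 39 / 25 := by
    calc m * h ≤ 39 * (1 / 25) := mul_le_mul hm39 hh1 hh0 (by norm_num)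
      _ = 39 / 25 := by norm_num
  have hcos : 0 ≤ Real.cos (m * h) := by
    apply Real.cos_nonneg_of_neg_pi_div_two_le_of_le
    · have := Real.pi_pos
      linarith
    · have := Real.pi_gt_d2
      linarith
  have hc : Real.cos (m * θ) = Real.cos (m * h + Real.pi) := by
    rw [Real.cos_add_pi]
    have e : m * θ = ((2 * l + 1 : ℕ) : ℝ) * Real.pi - m * h := by
      rw [← hm, hh]
      ring
    rw [e, Real.cos_nat_mul_pi_sub]
    rw [pow_succ, pow_mul]
    norm_num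
  have hk : kr (m * t) (m * θ) = kr (m * t) (m * h + Real.pi) := by
    unfold kr
    rw [hc]
  have hb := h2 (m * t) (m * h) (by positivity)
  have hb2 := (h2 (m * t) (m * h + Real.pi) (by positivity)).2.1
  have hb3 := hb.2.2 hcos
  have hmt : m * t ≤ 1 := by
    calc m * t ≤ 39 * t := mul_le_mul_of_nonneg_right hm39 ht.le
      _ ≤ 1 := ht2
  have hkr : |kr (m * t) (m * θ) - 1| ≤ 1 := by
    rw [hk, abs_le]
    constructor <;> linarith
  have h1 := cf_bd ha ψ (2 * l)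
  have hcast : ((2 * l : ℕ) : ℝ) + 1 = m := by rw [hm]; push_cast; ring
  rw [hcast, abs_mul, abs_div, abs_div, abs_of_pos hm0, abs_two, ← hm1]
  calc |cf a ψ (2 * l)| / m * (|kr (m * t) (m * θ) - 1| / 2)
      ≤ (3 + (1 / 2 : ℝ) ^ (2 * l + 1)) / m * (1 / 2) := by
        gcongr
    _ = (3 + (1 / 2 : ℝ) ^ (2 * l + 1)) / (2 * m) := by
        field_simp

theorem num1 : ∑ l ∈ range 20, (3 + (1 / 2 : ℝ) ^ (2 * l + 1)) / (2 * (2 * (l : ℝ) + 1)) ≤ 4.1 := by
  simp only [Finset.sum_range_succ, Finset.sum_range_zero]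
  norm_num

theorem num2 : ∑ x ∈ range 19, 1 / (2 * (20 + (x : ℝ)) + 1) ^ 2 ≤ 0.0061 := by
  simp only [Finset.sum_range_succ, Finset.sum_range_zero]
  norm_num

theorem tele : HasSum (fun j : ℕ => 1 / ((j : ℝ) + 78.5) - 1 / ((j : ℝ) + 79.5)) (1 / 78.5) := by
  rw [hasSum_iff_tendsto_nat_of_nonneg]
  · have h1 : ∀ n : ℕ, ∑ j ∈ range n, (1 / ((j : ℝ) + 78.5) - 1 / ((j : ℝ) + 79.5)) =
        1 / 78.5 - 1 / ((n : ℝ) + 78.5) := by
      intro n
      induction n with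
      | zero => simp
      | succ n ih =>
        rw [Finset.sum_range_succ, ih]
        push_cast
        have : (n : ℝ) + 1 + 78.5 = (n : ℝ) + 79.5 := by ring
        rw [this]
        ring
    simp only [h1]
    have h2 : Tendsto (fun n : ℕ => (n : ℝ) + 78.5) atTop atTop :=
      tendsto_atTop_add_const_right _ _ tendsto_natCast_atTop_atTop
    have h3 := (tendsto_inv_atTop_zero.comp h2).const_sub (1 / 78.5)
    rw [sub_zero] at h3
    refine h3.congr fun n => ?_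
    simp only [Function.comp_apply, one_div]
  · intro j
    have hj : (0 : ℝ) ≤ j := Nat.cast_nonneg j
    rw [sub_nonneg]
    exact one_div_le_one_div_of_le (by linarith) (by linarith)

theorem t_C02r (h2 : B02) : C02r := by
  intro a K θ t hA ht hθ1 hθ2
  have ha : 2 ≤ a ∧ a ≤ 3 := by
    rcases hA with h | h
    · rw [h.1]; norm_num
    · rw [h.1]; norm_num
  have hK : (340 : ℝ) ≤ K := by
    rcases hA with h | h
    · exact_mod_cast h.2
    · have : (400 : ℝ) ≤ K := by exact_mod_cast h.2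
      linarith
  have hlog0 : 0 < Real.log a := Real.log_pos (by linarith [ha.1])
  have hlog1 : Real.log a ≤ 2 := by
    have := Real.log_le_sub_one_of_pos (by linarith [ha.1] : 0 < a)
    linarith [ha.2]
  have ht0 : 0 < t := by
    rw [ht]
    have : (0 : ℝ) < K := by linarith
    positivity
  have ht1 : 39 * t ≤ 1 := by
    have : t ≤ 2 / 340 := by
      rw [ht]
      gcongr
    linarith
  -- the finite sum
  have hfin : (∑ l ∈ range 39, cf a (K * θ) (2 * l) / ((2 * l : ℕ) + 1) *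
      ((kr ((2 * l + 1 : ℕ) * t) ((2 * l + 1 : ℕ) * θ) - 1) / 2)) ≤
      4.1 + 3.0001 / t * 0.0061 := by
    rw [show (39 : ℕ) = 20 + 19 from rfl, Finset.sum_range_add]
    refine add_le_add ?_ ?_
    · refine le_trans (Finset.sum_le_sum fun l hl => ?_) num1
      exact (le_abs_self _).trans (near h2 ha.1 (K * θ) ht0 ht1 hθ1 hθ2 l (Finset.mem_range.1 hl))
    · have h3 : ∀ x ∈ range 19, cf a (K * θ) (2 * (20 + x)) / ((2 * (20 + x) : ℕ) + 1) *
          ((kr ((2 * (20 + x) + 1 : ℕ) * t) ((2 * (20 + x) + 1 : ℕ) * θ) - 1) / 2) ≤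
          3.0001 / t * (1 / (2 * (20 + (x : ℝ)) + 1) ^ 2) := by
        intro x _
        have h4 := (le_abs_self _).trans (far h2 ha.1 (K * θ) ht0 θ (2 * (20 + x)) (by omega))
        refine h4.trans (le_of_eq ?_)
        push_cast
        rfl
      refine (Finset.sum_le_sum h3).trans ?_
      rw [← Finset.mul_sum]
      exact mul_le_mul_of_nonneg_left num2 (by positivity)
  -- the tail
  have htail : (∑' j : ℕ, cf a (K * θ) (j + 78) / ((j + 78 : ℕ) + 1) *
      ((kr ((j + 78 + 1 : ℕ) * t) ((j + 78 + 1 : ℕ) * θ) - 1) / 2)) ≤ 3.0001 / t * (1 / 78.5) := by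
    refine (le_abs_self _).trans ?_
    rw [← Real.norm_eq_abs]
    refine tsum_of_norm_bounded (tele.mul_left (3.0001 / t)) fun j => ?_
    rw [Real.norm_eq_abs]
    refine (far h2 ha.1 (K * θ) ht0 θ (j + 78) (by omega)).trans ?_
    refine mul_le_mul_of_nonneg_left ?_ (by positivity)
    have hj : (0 : ℝ) ≤ j := Nat.cast_nonneg j
    push_cast
    rw [div_sub_div _ _ (by positivity) (by positivity), div_le_div_iff₀ (by positivity)
      (by positivity)]
    nlinarith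
  refine (add_le_add hfin htail).trans ?_
  have h5 : 3.0001 / t * 0.0061 + 3.0001 / t * (1 / 78.5) ≤ 0.0572 / t := by
    have : 3.0001 / t * 0.0061 + 3.0001 / t * (1 / 78.5) = (3.0001 * 0.0061 + 3.0001 / 78.5) / t := by
      field_simp
    rw [this]
    refine div_le_div_of_nonneg_right ?_ ht0.le
    norm_num
  linarith

end Pool.Agent.N75.MI
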