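import Pool.Agent.N463.MI.Stm

set_option autoImplicit false

/-!
# Project MI: upper bound for `|FF|` by the majorants
-/

namespace Pool.Agent.N75.MI.D4

open Finset Filter Topology
open Pool.Agent.N463.MI

theorem normsq (x φ : ℝ) :
    ‖1 + (x : ℂ) * Complex.exp ((φ : ℂ) * Complex.I)‖ ^ 2 = 1 + 2 * x * Real.cos φ + x ^ 2 := by
  rw [Complex.sq_norm, Complex.normSq_apply]
  have h1 : (1 + (x : ℂ) * Complex.exp ((φ : ℂ) * Complex.I)).re = 1 + x * Real.cos φ := by
    rw [Complex.add_re, Complex.one_re, Complex.re_ofReal_mul, Complex.exp_ofReal_mul_I_re]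
  have h2 : (1 + (x : ℂ) * Complex.exp ((φ : ℂ) * Complex.I)).im = x * Real.sin φ := by
    rw [Complex.add_im, Complex.one_im, Complex.im_ofReal_mul, Complex.exp_ofReal_mul_I_im, zero_add]
  rw [h1, h2]
  have h3 := Real.sin_sq_add_cos_sq φ
  linear_combination x ^ 2 * h3

theorem qn (t θ : ℝ) (n : ℕ) : (pt t θ) ^ n =
    ((Real.exp (-((n : ℝ) * t)) : ℝ) : ℂ) * Complex.exp ((((n : ℝ) * θ : ℝ) : ℂ) * Complex.I) := by
  unfold pt
  rw [← Complex.exp_nat_mul, Complex.ofReal_exp, ← Complex.exp_add]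
  congr 1
  push_cast
  ring

/-- the majorant of degree 2 -/
noncomputable def Mf (ρ φ : ℝ) : ℝ := 133 / 300 * ρ ^ 3 - 67 / 400 * ρ ^ 4
    + (ρ - ρ ^ 3 / 3) * Real.cos φ - (ρ ^ 2 / 2 - 3 / 10 * ρ ^ 3) * Real.cos (2 * φ)

/-- the majorant of degree 1 -/
noncomputable def M3 (ρ φ : ℝ) : ℝ := ρ ^ 2 / 2 - ρ ^ 4 / 8 - (ρ - ρ ^ 3 / 3) * Real.cos φ

theorem le_of_sq {x y : ℝ} (hx : 0 ≤ x) (h : x ^ 2 ≤ Real.exp (2 * y)) : x ≤ Real.exp y := by
  have h1 : Real.exp (2 * y) = Real.exp y ^ 2 := by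
    rw [← Real.exp_nat_mul]
    push_cast
    rfl
  rw [h1] at h
  exact le_of_sq_le_sq h (Real.exp_pos _).le

theorem fac (d1 : D01) (u φ : ℝ) :
    ‖1 + ((Real.exp u : ℝ) : ℂ) * Complex.exp ((φ : ℂ) * Complex.I)‖ ≤
      Real.exp (max u 0 + Mf (Real.exp (-|u|)) φ) := by
  apply le_of_sq (norm_nonneg _)
  rw [normsq]
  have hρ1 : Real.exp (-|u|) ≤ 1 := by
    rw [Real.exp_le_one_iff]
    linarith [abs_nonneg u]
  have h1 := d1 (Real.exp (-|u|)) φ (Real.exp_pos _).le hρ1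
  have h2 : Real.exp (2 * (max u 0 + Mf (Real.exp (-|u|)) φ)) =
      Real.exp (2 * max u 0) * Real.exp (2 * Mf (Real.exp (-|u|)) φ) := by
    rw [← Real.exp_add]
    congr 1
    ring
  have h3 : 1 + 2 * Real.exp u * Real.cos φ + Real.exp u ^ 2 =
      Real.exp (2 * max u 0) *
        (1 + 2 * Real.exp (-|u|) * Real.cos φ + Real.exp (-|u|) ^ 2) := by
    rcases le_total u 0 with hu | hu
    · rw [max_eq_right hu, mul_zero, Real.exp_zero, one_mul, abs_of_nonpos hu, neg_neg]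
    · rw [max_eq_left hu, abs_of_nonneg hu]
      have e1 : Real.exp (2 * u) = Real.exp u ^ 2 := by
        rw [← Real.exp_nat_mul]
        push_cast
        rfl
      have e2 : Real.exp u * Real.exp (-u) = 1 := by
        rw [← Real.exp_add, add_neg_cancel, Real.exp_zero]
      rw [e1]
      linear_combination (-(1 : ℝ) * (Real.exp u * Real.exp (-u) + 1) -
        2 * Real.exp u * Real.cos φ) * e2
  rw [h2, h3]
  exact mul_le_mul_of_nonneg_left h1 (Real.exp_pos _).le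

theorem fac3 (d2 : D02) {ρ : ℝ} (h0 : 0 ≤ ρ) (h1 : ρ ≤ 1) (φ : ℝ) :
    ‖1 - (ρ : ℂ) * Complex.exp ((φ : ℂ) * Complex.I)‖ ≤ Real.exp (M3 ρ φ) := by
  apply le_of_sq (norm_nonneg _)
  have h2 := normsq (-ρ) φ
  have h3 : (1 : ℂ) + ((-ρ : ℝ) : ℂ) * Complex.exp ((φ : ℂ) * Complex.I) =
      1 - (ρ : ℂ) * Complex.exp ((φ : ℂ) * Complex.I) := by
    push_cast
    ring
  rw [h3] at h2
  rw [h2]
  have h4 := d2 ρ φ h0 h1
  refine le_trans (le_of_eq ?_) h4
  ring

/-- summability of the two-sided exponentials -/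
theorem sumE {s : ℝ} (hs : 0 < s) (K : ℝ) :
    Summable (fun k : ℕ => Real.exp (-(s * |((k : ℝ) + 1) - K|))) := by
  have h1 : Summable (fun k : ℕ => Real.exp (s * (K - 1)) * Real.exp (-s) ^ k) :=
    (summable_geometric_of_lt_one (Real.exp_pos _).le (by
      rw [Real.exp_lt_one_iff]
      linarith)).mul_left _
  refine Summable.of_nonneg_of_le (fun k => (Real.exp_pos _).le) (fun k => ?_) h1
  rw [← Real.exp_nat_mul, ← Real.exp_add]
  apply Real.exp_le_exp.2
  have h2 := mul_le_mul_of_nonneg_left (le_abs_self (((k : ℝ) + 1) - K)) hs.le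
  linarith

theorem sumC {f : ℕ → ℝ} (hf : Summable f) (h0 : ∀ k, 0 ≤ f k) (c : ℕ → ℝ) :
    Summable (fun k => f k * Real.cos (c k)) := by
  refine Summable.of_norm_bounded hf fun k => ?_
  rw [norm_mul, Real.norm_of_nonneg (h0 k), Real.norm_eq_abs]
  calc f k * |Real.cos (c k)| ≤ f k * 1 :=
        mul_le_mul_of_nonneg_left (Real.abs_cos_le_one _) (h0 k)
    _ = f k := mul_one _

/-- a general bound for infinite products -/
theorem tprod_le {f : ℕ → ℂ} (hf : Multipliable f) {E : ℕ → ℝ} {C : ℝ} (hE : Summable E) (K : ℕ)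
    (h : ∀ N, K ≤ N → ‖∏ k ∈ range N, f k‖ ≤ Real.exp (C + ∑ k ∈ range N, E k)) :
    ‖∏' k, f k‖ ≤ Real.exp (C + ∑' k, E k) := by
  have h1 : Tendsto (fun N => ‖∏ k ∈ range N, f k‖) atTop (𝓝 ‖∏' k, f k‖) :=
    (hf.hasProd.tendsto_prod_nat).norm
  have h2 : Tendsto (fun N => Real.exp (C + ∑ k ∈ range N, E k)) atTop
      (𝓝 (Real.exp (C + ∑' k, E k))) :=
    (Real.continuous_exp.tendsto _).comp (hE.hasSum.tendsto_sum_nat.const_add C)
  exact le_of_tendsto_of_tendsto h1 h2 (eventually_atTop.2 ⟨K, h⟩)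

theorem exp_pow (x : ℝ) (n : ℕ) : Real.exp (-x) ^ n = Real.exp (-((n : ℝ) * x)) := by
  rw [← Real.exp_nat_mul]
  congr 1
  ring

theorem part1 (d1 : D01) {a : ℝ} {K : ℕ} (θ : ℝ) (ha : 1 < a) (hK : 1 ≤ K) {t : ℝ}
    (ht : t = Real.log a / K) :
    ‖PP (a : ℂ) (pt t θ)‖ ≤ Real.exp ((Real.log a) ^ 2 / (2 * t) - Real.log a / 2
    + (∑' k : ℕ, (133 / 300 * Real.exp (-(3 * t * |((k : ℝ) + 1) - K|))
        - 67 / 400 * Real.exp (-(4 * t * |((k : ℝ) + 1) - K|))
        + (Real.exp (-(t * |((k : ℝ) + 1) - K|)) - Real.exp (-(3 * t * |((k : ℝ) + 1) - K|)) / 3)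
            * Real.cos ((k + 1 : ℕ) * θ)
        - (Real.exp (-(2 * t * |((k : ℝ) + 1) - K|)) / 2
            - 3 / 10 * Real.exp (-(3 * t * |((k : ℝ) + 1) - K|)))
            * Real.cos ((k + 1 : ℕ) * (2 * θ))))) := by
  have hL : 0 < Real.log a := Real.log_pos ha
  have hK0 : (0 : ℝ) < K := by exact_mod_cast hK
  have ht0 : 0 < t := by rw [ht]; positivity
  have htK : t * K = Real.log a := by rw [ht]; field_simp
  set L := Real.log a with hLd
  have hs1 := sumE ht0 K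
  have hs2 := sumE (by positivity : 0 < 2 * t) K
  have hs3 := sumE (by positivity : 0 < 3 * t) K
  have hs4 := sumE (by positivity : 0 < 4 * t) K
  have c1 := sumC hs1 (fun k => (Real.exp_pos _).le) (fun k => ((k + 1 : ℕ) : ℝ) * θ)
  have c3 := sumC hs3 (fun k => (Real.exp_pos _).le) (fun k => ((k + 1 : ℕ) : ℝ) * θ)
  have c2' := sumC hs2 (fun k => (Real.exp_pos _).le) (fun k => ((k + 1 : ℕ) : ℝ) * (2 * θ))
  have c3' := sumC hs3 (fun k => (Real.exp_pos _).le) (fun k => ((k + 1 : ℕ) : ℝ) * (2 * θ))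
  have hE : Summable (fun k : ℕ => (133 / 300 * Real.exp (-(3 * t * |((k : ℝ) + 1) - K|))
        - 67 / 400 * Real.exp (-(4 * t * |((k : ℝ) + 1) - K|))
        + (Real.exp (-(t * |((k : ℝ) + 1) - K|)) - Real.exp (-(3 * t * |((k : ℝ) + 1) - K|)) / 3)
            * Real.cos ((k + 1 : ℕ) * θ)
        - (Real.exp (-(2 * t * |((k : ℝ) + 1) - K|)) / 2
            - 3 / 10 * Real.exp (-(3 * t * |((k : ℝ) + 1) - K|)))
            * Real.cos ((k + 1 : ℕ) * (2 * θ)))) := by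
    have h1 := ((((hs3.mul_left (133 / 300)).sub (hs4.mul_left (67 / 400))).add
      (c1.sub (c3.div_const 3))).sub ((c2'.div_const 2).sub (c3'.mul_left (3 / 10))))
    refine h1.congr fun k => ?_
    ring
  have hmul : Multipliable (fun k : ℕ => 1 + (a : ℂ) * (pt t θ) ^ (k + 1)) := by
    apply multipliable_one_add_of_summable
    have h1 : Summable (fun k : ℕ => a * Real.exp (-t) * Real.exp (-t) ^ k) :=
      (summable_geometric_of_lt_one (Real.exp_pos _).le (by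
        rw [Real.exp_lt_one_iff]
        linarith)).mul_left _
    refine h1.congr fun k => ?_
    rw [qn, norm_mul, norm_mul, Complex.norm_exp_ofReal_mul_I, mul_one, Complex.norm_real,
      Complex.norm_real, Real.norm_of_nonneg (by linarith : (0 : ℝ) ≤ a),
      Real.norm_of_nonneg (Real.exp_pos _).le, mul_assoc, ← pow_succ', exp_pow]
  refine tprod_le hmul hE K fun N hN => ?_
  -- one factor
  have hfac : ∀ k : ℕ, ‖1 + (a : ℂ) * (pt t θ) ^ (k + 1)‖ ≤
      Real.exp ((if k < K then L - ((k : ℝ) + 1) * t else 0) +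
        (133 / 300 * Real.exp (-(3 * t * |((k : ℝ) + 1) - K|))
        - 67 / 400 * Real.exp (-(4 * t * |((k : ℝ) + 1) - K|))
        + (Real.exp (-(t * |((k : ℝ) + 1) - K|)) - Real.exp (-(3 * t * |((k : ℝ) + 1) - K|)) / 3)
            * Real.cos ((k + 1 : ℕ) * θ)
        - (Real.exp (-(2 * t * |((k : ℝ) + 1) - K|)) / 2
            - 3 / 10 * Real.exp (-(3 * t * |((k : ℝ) + 1) - K|)))
            * Real.cos ((k + 1 : ℕ) * (2 * θ)))) := by
    intro k
    have h1 := fac d1 (L - ((k : ℝ) + 1) * t) (((k + 1 : ℕ) : ℝ) * θ)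
    have h2 : (1 : ℂ) + (a : ℂ) * (pt t θ) ^ (k + 1) =
        1 + ((Real.exp (L - ((k : ℝ) + 1) * t) : ℝ) : ℂ) *
          Complex.exp ((((k + 1 : ℕ) : ℝ) * θ : ℝ) * Complex.I) := by
      rw [qn, ← mul_assoc]
      congr 2
      rw [sub_eq_add_neg, Real.exp_add, Real.exp_log (by linarith : 0 < a)]
      push_cast
      rfl
    rw [h2]
    refine h1.trans (le_of_eq ?_)
    have h3 : max (L - ((k : ℝ) + 1) * t) 0 = if k < K then L - ((k : ℝ) + 1) * t else 0 := by
      split_ifs with hk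
      · have hk' : (k : ℝ) + 1 ≤ K := by exact_mod_cast hk
        apply max_eq_left
        have := mul_le_mul_of_nonneg_right hk' ht0.le
        linarith [mul_comm t (K : ℝ)]
      · push Not at hk
        have hk' : (K : ℝ) ≤ k := by exact_mod_cast hk
        apply max_eq_right
        have := mul_le_mul_of_nonneg_right hk' ht0.le
        linarith [mul_comm t (K : ℝ)]
    have h4 : |L - ((k : ℝ) + 1) * t| = t * |((k : ℝ) + 1) - K| := by
      rw [← htK, show t * (K : ℝ) - ((k : ℝ) + 1) * t = t * -(((k : ℝ) + 1) - K) by ring, abs_mul,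
        abs_neg, abs_of_pos ht0]
    rw [h3, h4]
    unfold Mf
    rw [exp_pow, exp_pow, exp_pow]
    have e2 : ((2 : ℕ) : ℝ) * (t * |((k : ℝ) + 1) - K|) = 2 * t * |((k : ℝ) + 1) - K| := by
      push_cast; ring
    have e3 : ((3 : ℕ) : ℝ) * (t * |((k : ℝ) + 1) - K|) = 3 * t * |((k : ℝ) + 1) - K| := by
      push_cast; ring
    have e4 : ((4 : ℕ) : ℝ) * (t * |((k : ℝ) + 1) - K|) = 4 * t * |((k : ℝ) + 1) - K| := by
      push_cast; ring
    have e5 : 2 * (((k + 1 : ℕ) : ℝ) * θ) = ((k + 1 : ℕ) : ℝ) * (2 * θ) := by ring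
    rw [e2, e3, e4, e5]
  rw [norm_prod]
  refine (Finset.prod_le_prod (fun k _ => norm_nonneg _) fun k _ => hfac k).trans (le_of_eq ?_)
  rw [← Real.exp_sum, Finset.sum_add_distrib]
  congr 2
  -- the arithmetic progression
  have h5 : ∑ k ∈ range N, (if k < K then L - ((k : ℝ) + 1) * t else 0) =
      ∑ k ∈ range K, (L - ((k : ℝ) + 1) * t) := by
    rw [← Finset.sum_filter]
    congr 1
    ext k
    rw [Finset.mem_filter, Finset.mem_range, Finset.mem_range]
    constructor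
    · exact fun h => h.2
    · exact fun h => ⟨by omega, h⟩
  rw [h5]
  have h6 : ∀ M : ℕ, ∑ k ∈ range M, (L - ((k : ℝ) + 1) * t) = M * L - t * (M * (M + 1)) / 2 := by
    intro M
    induction M with
    | zero => simp
    | succ M ih =>
      rw [Finset.sum_range_succ, ih]
      push_cast
      ring
  rw [h6, ← htK]
  field_simp
  ring

theorem part2 (h1 : A01) (d2 : D02) (θ : ℝ) {t : ℝ} (ht0 : 0 < t) :
    ‖∏' k : ℕ, (1 - (pt t θ) ^ (2 * k + 1))‖ ≤ Real.exp (∑' k : ℕ,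
      (Real.exp (-(2 * t * (2 * (k : ℝ) + 1))) / 2
        - Real.exp (-(4 * t * (2 * (k : ℝ) + 1))) / 8
        - (Real.exp (-(t * (2 * (k : ℝ) + 1))) - Real.exp (-(3 * t * (2 * (k : ℝ) + 1))) / 3)
            * Real.cos ((2 * k + 1 : ℕ) * θ))) := by
  have hs : ∀ s : ℝ, 0 < s → Summable (fun k : ℕ => Real.exp (-(s * (2 * (k : ℝ) + 1)))) := by
    intro s hs
    have h2 : Summable (fun k : ℕ => Real.exp (-s) * Real.exp (-(2 * s)) ^ k) :=
      (summable_geometric_of_lt_one (Real.exp_pos _).le (by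
        rw [Real.exp_lt_one_iff]
        linarith)).mul_left _
    refine h2.congr fun k => ?_
    rw [exp_pow, ← Real.exp_add]
    congr 1
    ring
  have hs1 := hs t ht0
  have hs2 := hs (2 * t) (by positivity)
  have hs3 := hs (3 * t) (by positivity)
  have hs4 := hs (4 * t) (by positivity)
  have c1 := sumC hs1 (fun k => (Real.exp_pos _).le) (fun k => ((2 * k + 1 : ℕ) : ℝ) * θ)
  have c3 := sumC hs3 (fun k => (Real.exp_pos _).le) (fun k => ((2 * k + 1 : ℕ) : ℝ) * θ)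
  have hE : Summable (fun k : ℕ => (Real.exp (-(2 * t * (2 * (k : ℝ) + 1))) / 2
        - Real.exp (-(4 * t * (2 * (k : ℝ) + 1))) / 8
        - (Real.exp (-(t * (2 * (k : ℝ) + 1))) - Real.exp (-(3 * t * (2 * (k : ℝ) + 1))) / 3)
            * Real.cos ((2 * k + 1 : ℕ) * θ))) := by
    have h2 := ((hs2.div_const 2).sub (hs4.div_const 8)).sub (c1.sub (c3.div_const 3))
    refine h2.congr fun k => ?_
    ring
  have hq : ‖pt t θ‖ < 1 := by
    have h2 := qn t θ 1
    rw [pow_one] at h2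
    rw [h2, norm_mul, Complex.norm_exp_ofReal_mul_I, mul_one, Complex.norm_real,
      Real.norm_of_nonneg (Real.exp_pos _).le, Real.exp_lt_one_iff]
    push_cast
    linarith
  have h3 := tprod_le (C := 0) (h1 _ hq).2.1 hE 0 (fun N _ => ?_)
  · rwa [zero_add] at h3
  · rw [zero_add, norm_prod]
    have hfac : ∀ k : ℕ, ‖1 - (pt t θ) ^ (2 * k + 1)‖ ≤
        Real.exp (Real.exp (-(2 * t * (2 * (k : ℝ) + 1))) / 2
        - Real.exp (-(4 * t * (2 * (k : ℝ) + 1))) / 8
        - (Real.exp (-(t * (2 * (k : ℝ) + 1))) - Real.exp (-(3 * t * (2 * (k : ℝ) + 1))) / 3)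
            * Real.cos ((2 * k + 1 : ℕ) * θ)) := by
      intro k
      have hk : (((2 * k + 1 : ℕ) : ℝ)) = 2 * (k : ℝ) + 1 := by push_cast; ring
      have h4 := fac3 d2 (ρ := Real.exp (-(t * (2 * (k : ℝ) + 1)))) (Real.exp_pos _).le (by
        rw [Real.exp_le_one_iff]
        have : 0 ≤ t * (2 * (k : ℝ) + 1) := by positivity
        linarith) (((2 * k + 1 : ℕ) : ℝ) * θ)
      have h5 : (1 : ℂ) - (pt t θ) ^ (2 * k + 1) =
          1 - ((Real.exp (-(t * (2 * (k : ℝ) + 1))) : ℝ) : ℂ) *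
            Complex.exp ((((2 * k + 1 : ℕ) : ℝ) * θ : ℝ) * Complex.I) := by
        rw [qn, hk, mul_comm t]
      rw [h5]
      refine h4.trans (le_of_eq ?_)
      unfold M3
      rw [exp_pow, exp_pow, exp_pow]
      have e2 : ((2 : ℕ) : ℝ) * (t * (2 * (k : ℝ) + 1)) = 2 * t * (2 * (k : ℝ) + 1) := by
        push_cast; ring
      have e3 : ((3 : ℕ) : ℝ) * (t * (2 * (k : ℝ) + 1)) = 3 * t * (2 * (k : ℝ) + 1) := by
        push_cast; ring
      have e4 : ((4 : ℕ) : ℝ) * (t * (2 * (k : ℝ) + 1)) = 4 * t * (2 * (k : ℝ) + 1) := by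
        push_cast; ring
      rw [e2, e3, e4]
    refine (Finset.prod_le_prod (fun k _ => norm_nonneg _) fun k _ => hfac k).trans (le_of_eq ?_)
    rw [← Real.exp_sum]

end Pool.Agent.N75.MI.D4

namespace Pool.Agent.N75.MI

open Pool.Agent.N463.MI D4

theorem t_D04 (h1 : A01) (d1 : D01) (d2 : D02) : D04 := by
  intro a K θ ha hK t ht
  have hL : 0 < Real.log a := Real.log_pos ha
  have hK0 : (0 : ℝ) < K := by exact_mod_cast hK
  have ht0 : 0 < t := by rw [ht]; positivity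
  have hq : ‖pt t θ‖ < 1 := by
    have h2 := qn t θ 1
    rw [pow_one] at h2
    rw [h2, norm_mul, Complex.norm_exp_ofReal_mul_I, mul_one, Complex.norm_real,
      Real.norm_of_nonneg (Real.exp_pos _).le, Real.exp_lt_one_iff]
    push_cast
    linarith
  obtain ⟨hne, -, hprod⟩ := h1 _ hq
  have hF : FF a (pt t θ) = PP (a : ℂ) (pt t θ) * ∏' k : ℕ, (1 - (pt t θ) ^ (2 * k + 1)) := by
    unfold FF
    rw [div_eq_iff hne, mul_assoc, mul_comm _ (PP 1 (pt t θ)), hprod, mul_one]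
  rw [hF, norm_mul, Real.exp_add]
  exact mul_le_mul (part1 d1 θ ha hK ht) (part2 h1 d2 θ ht0) (norm_nonneg _) (Real.exp_pos _).le

end Pool.Agent.N75.MI
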